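import Pool.Agent.H14.TradeBig

set_option autoImplicit false

namespace Pool.Agent.Results.MP_96963f_co.LowerBound

open Pool.Agent.H14

/-- `f` is `m`-asummable: it is not `k`-summable for any `1 ≤ k ≤ m`. -/
def Asummable {n : ℕ} (f : (Fin n → Bool) → Bool) (m : ℕ) : Prop :=
  ∀ k : ℕ, 1 ≤ k → k ≤ m → ¬ HasTrade f k

theorem real_bound (n r K : ℕ) (hn : 2304 ≤ n) (hr : n < 48 * 2 ^ r) (hK : 2 * K = r * 2 ^ r) :
    (1 / 192 : ℝ) * n * Real.logb 2 n ≤ K := by
  have hn0 : (0 : ℝ) < n := by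
    have : 0 < n := by omega
    exact_mod_cast this
  have hn1 : (2304 : ℝ) ≤ n := by exact_mod_cast hn
  have hr' : (n : ℝ) < 48 * 2 ^ r := by exact_mod_cast hr
  have hK' : (2 : ℝ) * K = r * 2 ^ r := by exact_mod_cast hK
  have hlog2 : (0 : ℝ) < Real.log 2 := Real.log_pos (by norm_num)
  -- logb n ≤ logb 48 + r
  have h1 : Real.logb 2 n ≤ Real.logb 2 48 + r := by
    have : Real.logb 2 n ≤ Real.logb 2 (48 * 2 ^ r) :=
      Real.logb_le_logb_of_le (by norm_num) hn0 hr'.le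
    rw [Real.logb_mul (by norm_num) (by positivity), Real.logb_pow] at this
    simpa using this
  have h2 : 2 * Real.logb 2 48 ≤ Real.logb 2 n := by
    have : Real.logb 2 (48 ^ 2) ≤ Real.logb 2 n :=
      Real.logb_le_logb_of_le (by norm_num) (by norm_num) (by norm_num; linarith)
    rw [Real.logb_pow] at this
    simpa using this
  have h3 : Real.logb 2 n ≤ 2 * r := by linarith
  have h4 : (0 : ℝ) ≤ Real.logb 2 n := Real.logb_nonneg (by norm_num) (by linarith)
  have h5 : (n : ℝ) * Real.logb 2 n ≤ (48 * 2 ^ r) * (2 * r) :=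
    mul_le_mul hr'.le h3 h4 (by positivity)
  nlinarith

/-- There is a constant `c > 0` such that for all `n ≥ 2304`, if every `m`-asummable switching
function on `n` variables is weighted threshold, then `m ≥ 2^{c n log₂ n}`. -/
theorem result :
    ∃ c : ℝ, 0 < c ∧ ∀ n : ℕ, 2304 ≤ n → ∀ m : ℕ,
      (∀ f : (Fin n → Bool) → Bool, IsSwitching f → Asummable f m → IsWeighted f) →
      (2 : ℝ) ^ (c * n * Real.logb 2 n) ≤ m := by
  refine ⟨1 / 192, by norm_num, ?_⟩
  intro n hn m hm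
  let r := Nat.log 2 (n / 24)
  have hne : n / 24 ≠ 0 := by omega
  have h1 : 2 ^ r ≤ n / 24 := Nat.pow_log_le_self 2 hne
  have h2 : n / 24 < 2 ^ (r + 1) := Nat.lt_pow_succ_log_self (by norm_num) _
  have h3 : 24 * 2 ^ r ≤ n := by omega
  have h4 : n < 48 * 2 ^ r := by
    rw [pow_succ] at h2
    omega
  have hr1 : 1 ≤ r := by
    by_contra h
    have : r = 0 := by omega
    rw [this] at h4
    omega
  have hK : 2 * (r * 2 ^ (r - 1)) = r * 2 ^ r := by
    obtain ⟨s, hs⟩ : ∃ s, r = s + 1 := ⟨r - 1, by omega⟩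
    rw [hs, Nat.add_sub_cancel, pow_succ]
    ring
  obtain ⟨f, hf1, hf2, hf3⟩ := big r (r * 2 ^ (r - 1)) hK
  obtain ⟨f', g1, g2, g3⟩ := transfer n (by simpa using h3) f hf1 hf2
  have hmge : 2 ^ (r * 2 ^ (r - 1)) ≤ m := by
    by_contra hlt
    push Not at hlt
    apply g2
    apply hm f' g1
    intro k hk1 hk2 ht
    have := hf3 k hk1 (g3 k ht)
    omega
  have hreal := real_bound n r (r * 2 ^ (r - 1)) hn h4 hK
  calc (2 : ℝ) ^ ((1 / 192 : ℝ) * n * Real.logb 2 n)
      ≤ (2 : ℝ) ^ (((r * 2 ^ (r - 1) : ℕ)) : ℝ) :=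
        Real.rpow_le_rpow_of_exponent_le (by norm_num) hreal
    _ = ((2 ^ (r * 2 ^ (r - 1)) : ℕ) : ℝ) := by
        rw [Real.rpow_natCast]; push_cast; rfl
    _ ≤ m := by exact_mod_cast hmge

end Pool.Agent.Results.MP_96963f_co.LowerBound
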